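import Pool.Agent.H98.RFC.Targets

/-!
# Row PL of the board `rfc_modules`

`psi` in `Λ` depends on `D` only in the hull of `Λ`.
-/

set_option autoImplicit false

noncomputable section

namespace Pool.Agent.H38.RFC

open Pool.Agent.H98.RFC

private theorem mem_hull_of_prs {R : ℕ} {Λ : Finset Site} {p : Site × Site}
    (hp : p ∈ prs R Λ) : p.1 ∈ hull R Λ ∧ p.2 ∈ hull R Λ := by
  unfold prs at hp
  rw [Finset.mem_filter, Finset.mem_product] at hp
  exact hp.1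

private theorem conn_mono {R : ℕ} {D D' : Set Site} {Λ : Finset Site} {x : Site}
    {ω : Finset (Site × Site)} (hω : ω ⊆ prs R Λ)
    (h : ∀ z ∈ hull R Λ, (z ∈ D ↔ z ∈ D')) (hc : conn D Λ ω x) : conn D' Λ ω x := by
  obtain ⟨y, hy, hr⟩ := hc
  refine ⟨y, hy, ?_⟩
  have hmono : ∀ a b : Site, (a ∈ Λ ∧ a ∈ D ∧ b ∈ D ∧ opn ω a b) →
      (a ∈ Λ ∧ a ∈ D' ∧ b ∈ D' ∧ opn ω a b) := by
    rintro a b ⟨ha, haD, hbD, hab⟩
    have hh : a ∈ hull R Λ ∧ b ∈ hull R Λ := by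
      rcases hab with hab | hab
      · exact mem_hull_of_prs (hω hab)
      · exact (mem_hull_of_prs (hω hab)).symm
    exact ⟨ha, (h a hh.1).1 haD, (h b hh.2).1 hbD, hab⟩
  exact Relation.ReflTransGen.mono hmono _ _ hr

theorem pf_PL : T_PL := by
  intro R q D D' Λ x hx h
  unfold psi
  refine Finset.sum_congr rfl ?_
  intro ω hω
  have hω' : ω ⊆ prs R Λ := Finset.mem_powerset.1 hω
  have hiff : conn D Λ ω x ↔ conn D' Λ ω x :=
    ⟨conn_mono hω' h, conn_mono hω' (fun z hz => (h z hz).symm)⟩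
  by_cases hc : conn D Λ ω x
  · rw [if_pos hc, if_pos (hiff.1 hc)]
  · rw [if_neg hc, if_neg (fun h' => hc (hiff.2 h'))]

end Pool.Agent.H38.RFC
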